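import Pool.Agent.H295R2.Beu.Defs

/-!
# Task A4c (helper747): `KerMass` from `PsiBound` and `PsiNe`
-/

set_option autoImplicit false

open MeasureTheory Filter Topology Set

namespace Pool.Agent.H747R2.BeuA4c

open Pool.Agent.H295R2.Beu

noncomputable section

lemma psi_meas : Measurable psi := by
  unfold psi
  fun_prop

/-- the integrand of `Psi` -/
def gg (s : ℂ) (u : ℝ) : ℂ := (u : ℂ) ^ s * (psi u : ℂ)

lemma gg_meas (s : ℂ) : Measurable (gg s) := by
  unfold gg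
  exact (Complex.measurable_ofReal.pow_const s).mul (Complex.measurable_ofReal.comp psi_meas)

lemma norm_gg (s : ℂ) {u : ℝ} (hu : 0 < u) : ‖gg s u‖ = u ^ s.re * |psi u| := by
  unfold gg
  rw [norm_mul, Complex.norm_cpow_eq_rpow_re_of_pos hu, Complex.norm_real, Real.norm_eq_abs]

lemma gg_int (h1 : PsiBound) (s : ℂ) (hs0 : 0 < s.re) (hs1 : s.re < 1) :
    IntegrableOn (gg s) (Ioi 0) := by
  rw [← Ioc_union_Ioi_eq_Ioi zero_le_one]
  refine IntegrableOn.union ?_ ?_
  · refine Measure.integrableOn_of_bounded (M := 24) (by simp) (gg_meas s).aestronglyMeasurable ?_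
    refine (ae_restrict_mem measurableSet_Ioc).mono fun u hu => ?_
    rw [norm_gg s hu.1]
    have h2 := (h1 u hu.1).1
    have h3 : u ^ s.re ≤ 1 := Real.rpow_le_one hu.1.le hu.2 hs0.le
    have h4 : 0 ≤ u ^ s.re := Real.rpow_nonneg hu.1.le _
    nlinarith [abs_nonneg (psi u)]
  · have h2 : IntegrableOn (fun u : ℝ => 24 * u ^ (s.re - 2)) (Ioi 1) :=
      (integrableOn_Ioi_rpow_of_lt (by linarith) zero_lt_one).const_mul 24
    refine Integrable.mono' h2 (gg_meas s).aestronglyMeasurable ?_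
    refine (ae_restrict_mem measurableSet_Ioi).mono fun u hu => ?_
    have hu0 : (0 : ℝ) < u := lt_trans zero_lt_one hu
    rw [norm_gg s hu0, Real.rpow_sub hu0, Real.rpow_two]
    have h3 := (h1 u hu0).2
    calc u ^ s.re * |psi u| ≤ u ^ s.re * (24 / u ^ 2) :=
          mul_le_mul_of_nonneg_left h3 (Real.rpow_nonneg hu0.le _)
      _ = 24 * (u ^ s.re / u ^ 2) := by ring

/-- the integrand of `ker` -/
lemma integrand (s : ℂ) {v w : ℝ} (hv : 0 < v) (hw : 0 < w) :
    (w : ℂ) ^ s * (psi (v * w) : ℂ) = (v : ℂ) ^ (-s) * gg s (v * w) := by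
  unfold gg
  rw [Complex.ofReal_mul, Complex.mul_cpow_ofReal_nonneg hv.le hw.le, Complex.cpow_neg]
  have hv' : (v : ℂ) ^ s ≠ 0 := by
    rw [Complex.cpow_ne_zero_iff]
    left
    exact_mod_cast hv.ne'
  field_simp

lemma int_fv (h1 : PsiBound) (s : ℂ) (hs0 : 0 < s.re) (hs1 : s.re < 1) {v : ℝ} (hv : 0 < v) :
    IntegrableOn (fun w : ℝ => (w : ℂ) ^ s * (psi (v * w) : ℂ)) (Ioi 0) := by
  have h2 : IntegrableOn (fun w : ℝ => gg s (v * w)) (Ioi 0) := by
    rw [integrableOn_Ioi_comp_mul_left_iff _ _ hv, mul_zero]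
    exact gg_int h1 s hs0 hs1
  have h3 : IntegrableOn (fun w : ℝ => (v : ℂ) ^ (-s) * gg s (v * w)) (Ioi 0) := h2.const_mul _
  refine h3.congr_fun (fun w hw => ?_) measurableSet_Ioi
  exact (integrand s hv hw).symm

lemma integral_fv (s : ℂ) {v : ℝ} (hv : 0 < v) :
    ∫ w in Ioi (0:ℝ), (w : ℂ) ^ s * (psi (v * w) : ℂ) = (v : ℂ) ^ (-s - 1) * Psi s := by
  rw [setIntegral_congr_fun measurableSet_Ioi (fun w hw => integrand s hv hw), integral_const_mul,
    integral_comp_mul_left_Ioi (gg s) 0 hv, mul_zero]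
  have h2 : ∫ x in Ioi (0:ℝ), gg s x = Psi s := rfl
  rw [h2, Complex.cpow_sub _ _ (by exact_mod_cast hv.ne'), Complex.cpow_one, Complex.real_smul]
  push_cast
  ring

/-- the tail near `0` -/
def hh (s : ℂ) (N v : ℝ) : ℂ := ∫ w in Ioc (0:ℝ) (1 / N), (w : ℂ) ^ s * (psi (v * w) : ℂ)

lemma hh_meas (s : ℂ) (N : ℝ) : StronglyMeasurable (hh s N) := by
  unfold hh
  refine StronglyMeasurable.integral_prod_right' (f := fun p : ℝ × ℝ =>
    (p.2 : ℂ) ^ s * (psi (p.1 * p.2) : ℂ)) ?_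
  refine Measurable.stronglyMeasurable ?_
  exact ((Complex.measurable_ofReal.comp measurable_snd).pow_const s).mul
    (Complex.measurable_ofReal.comp (psi_meas.comp (measurable_fst.mul measurable_snd)))

lemma ker_eq (h1 : PsiBound) (s : ℂ) (hs0 : 0 < s.re) (hs1 : s.re < 1) {N v : ℝ} (hN : 0 < N)
    (hv : 0 < v) : ker s N v = (v : ℂ) ^ (-s - 1) * Psi s - hh s N v := by
  have hN' : 0 ≤ 1 / N := by positivity
  have h2 := int_fv h1 s hs0 hs1 hv
  rw [← Ioc_union_Ioi_eq_Ioi hN'] at h2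
  have h3 := setIntegral_union (μ := volume) (Ioc_disjoint_Ioi (a := (0:ℝ)) (le_refl (1 / N)))
    measurableSet_Ioi h2.left_of_union h2.right_of_union
  rw [Ioc_union_Ioi_eq_Ioi hN', integral_fv s hv] at h3
  unfold Pool.Agent.H295R2.Beu.ker hh
  rw [h3]
  ring

lemma hh_bound1 (h1 : PsiBound) (s : ℂ) (hs0 : 0 < s.re) {N v : ℝ} (hN : 0 < N)
    (hv : 0 < v) : ‖hh s N v‖ ≤ 24 * N ^ (-s.re - 1) := by
  unfold hh
  have hN' : 0 < 1 / N := by positivity
  have h2 : ‖∫ w in Ioc (0:ℝ) (1 / N), (w : ℂ) ^ s * (psi (v * w) : ℂ)‖ ≤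
      ((1 / N) ^ s.re * 24) * volume.real (Ioc (0:ℝ) (1 / N)) := by
    refine norm_setIntegral_le_of_norm_le_const (by simp) fun w hw => ?_
    rw [norm_mul, Complex.norm_cpow_eq_rpow_re_of_pos hw.1, Complex.norm_real, Real.norm_eq_abs]
    exact mul_le_mul (Real.rpow_le_rpow hw.1.le hw.2 hs0.le) (h1 _ (mul_pos hv hw.1)).1
      (abs_nonneg _) (Real.rpow_nonneg hN'.le _)
  refine h2.trans (le_of_eq ?_)
  rw [Real.volume_real_Ioc_of_le hN'.le, sub_zero, one_div, Real.inv_rpow hN.le,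
    Real.rpow_sub hN, Real.rpow_neg hN.le, Real.rpow_one]
  ring

lemma hh_bound2 (h1 : PsiBound) (s : ℂ) (hs0 : 0 < s.re) (hs1 : s.re < 1) {N v : ℝ}
    (hv : 0 < v) : ‖hh s N v‖ ≤ (∫ u in Ioi (0:ℝ), ‖gg s u‖) * v ^ (-s.re - 1) := by
  unfold hh
  have h2 := int_fv h1 s hs0 hs1 hv
  refine (norm_integral_le_integral_norm _).trans ?_
  have h3 : ∫ w in Ioc (0:ℝ) (1 / N), ‖(w : ℂ) ^ s * (psi (v * w) : ℂ)‖ ≤
      ∫ w in Ioi (0:ℝ), ‖(w : ℂ) ^ s * (psi (v * w) : ℂ)‖ := by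
    refine setIntegral_mono_set h2.norm (Eventually.of_forall fun w => norm_nonneg _) ?_
    exact (Ioc_subset_Ioi_self).eventuallyLE
  refine h3.trans (le_of_eq ?_)
  have h4 : ∀ w ∈ Ioi (0:ℝ), ‖(w : ℂ) ^ s * (psi (v * w) : ℂ)‖ = v ^ (-s.re) * ‖gg s (v * w)‖ := by
    intro w hw
    rw [integrand s hv hw, norm_mul, Complex.norm_cpow_eq_rpow_re_of_pos hv, Complex.neg_re]
  rw [setIntegral_congr_fun measurableSet_Ioi h4, integral_const_mul,
    integral_comp_mul_left_Ioi (fun u => ‖gg s u‖) 0 hv, mul_zero, smul_eq_mul,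
    Real.rpow_sub hv, Real.rpow_one]
  ring

/-- A4c -/
theorem kerMass (h1 : PsiBound) (h2 : PsiNe) : KerMass := by
  intro s hs0 hs1
  have hs : s ≠ 0 := by
    intro h
    rw [h] at hs0
    simp at hs0
  have hPsi := h2 s hs0 hs1
  set A : ℝ := ‖Psi s / s‖ with hA
  have hA0 : 0 < A := norm_pos_iff.2 (div_ne_zero hPsi hs)
  set C1 : ℝ := ∫ u in Ioi (0:ℝ), ‖gg s u‖ with hC1
  have hC10 : 0 ≤ C1 := integral_nonneg fun u => norm_nonneg _
  set β := s.re with hβ
  -- decay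
  have hev : ∀ᶠ N : ℝ in atTop, (24 + C1 / β) * N ^ (-β) ≤ A / 2 := by
    have ht : Tendsto (fun N : ℝ => (24 + C1 / β) * N ^ (-β)) atTop (𝓝 ((24 + C1 / β) * 0)) :=
      (tendsto_rpow_neg_atTop hs0).const_mul _
    rw [mul_zero] at ht
    exact ht.eventually (eventually_le_nhds (by positivity))
  obtain ⟨N1, hN1⟩ := eventually_atTop.1 hev
  refine ⟨A / 2, by positivity, max N1 1, le_max_right _ _, fun N hN => ?_⟩
  have hNN1 : N1 ≤ N := (le_max_left _ _).trans hN
  have hN1' : 1 ≤ N := (le_max_right _ _).trans hN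
  have hN0 : 0 < N := by linarith
  have hdec := hN1 N hNN1
  -- integrability
  have hint : IntegrableOn (hh s N) (Ioi 1) := by
    have h3 : IntegrableOn (fun v : ℝ => C1 * v ^ (-β - 1)) (Ioi 1) :=
      (integrableOn_Ioi_rpow_of_lt (by linarith) zero_lt_one).const_mul _
    refine Integrable.mono' h3 (hh_meas s N).aestronglyMeasurable ?_
    refine (ae_restrict_mem measurableSet_Ioi).mono fun v hv => ?_
    exact hh_bound2 h1 s hs0 hs1 (lt_trans zero_lt_one hv)
  have hcp : IntegrableOn (fun v : ℝ => (v : ℂ) ^ (-s - 1) * Psi s) (Ioi 1) := by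
    refine Integrable.mul_const ?_ _
    refine integrableOn_Ioi_cpow_of_lt ?_ zero_lt_one
    simp only [Complex.sub_re, Complex.neg_re, Complex.one_re]
    linarith
  have hker : ∫ v in Ioi (1:ℝ), ker s N v = Psi s / s - ∫ v in Ioi (1:ℝ), hh s N v := by
    rw [setIntegral_congr_fun measurableSet_Ioi
      (fun v hv => ker_eq h1 s hs0 hs1 hN0 (lt_trans zero_lt_one hv)), integral_sub hcp hint,
      integral_mul_const, integral_Ioi_cpow_of_lt _ zero_lt_one]
    · congr 1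
      simp only [Complex.ofReal_one, Complex.one_cpow, sub_add_cancel]
      field_simp
    · simp only [Complex.sub_re, Complex.neg_re, Complex.one_re]
      linarith
  -- the bound of the integral of `hh`
  have hhint : ‖∫ v in Ioi (1:ℝ), hh s N v‖ ≤ (24 + C1 / β) * N ^ (-β) := by
    have hint' := hint
    rw [← Ioc_union_Ioi_eq_Ioi hN1'] at hint'
    have h3 := setIntegral_union (μ := volume) (Ioc_disjoint_Ioi (a := (1:ℝ)) (le_refl N))
      measurableSet_Ioi hint'.left_of_union hint'.right_of_union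
    rw [Ioc_union_Ioi_eq_Ioi hN1'] at h3
    rw [h3]
    have h4 : ‖∫ v in Ioc (1:ℝ) N, hh s N v‖ ≤ 24 * N ^ (-β) := by
      have h5 : ‖∫ v in Ioc (1:ℝ) N, hh s N v‖ ≤ (24 * N ^ (-β - 1)) * volume.real (Ioc (1:ℝ) N) := by
        refine norm_setIntegral_le_of_norm_le_const (by simp) fun v hv => ?_
        exact hh_bound1 h1 s hs0 hN0 (lt_trans zero_lt_one hv.1)
      refine h5.trans ?_
      rw [Real.volume_real_Ioc_of_le hN1']
      have h6 : N ^ (-β) = N ^ (-β - 1) * N := by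
        rw [Real.rpow_sub hN0, Real.rpow_one]
        field_simp
      rw [h6]
      have h7 : 0 ≤ N ^ (-β - 1) := Real.rpow_nonneg hN0.le _
      nlinarith
    have h8 : ‖∫ v in Ioi N, hh s N v‖ ≤ C1 / β * N ^ (-β) := by
      have h9 : ∫ v in Ioi N, C1 * v ^ (-β - 1) = C1 / β * N ^ (-β) := by
        rw [integral_const_mul, integral_Ioi_rpow_of_lt (by linarith) hN0]
        simp only [sub_add_cancel]
        field_simp
      rw [← h9]
      refine norm_integral_le_of_norm_le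
        ((integrableOn_Ioi_rpow_of_lt (by linarith) hN0).const_mul _) ?_
      refine (ae_restrict_mem measurableSet_Ioi).mono fun v hv => ?_
      exact hh_bound2 h1 s hs0 hs1 (lt_trans hN0 hv)
    calc ‖(∫ v in Ioc (1:ℝ) N, hh s N v) + ∫ v in Ioi N, hh s N v‖
        ≤ 24 * N ^ (-β) + C1 / β * N ^ (-β) := (norm_add_le _ _).trans (add_le_add h4 h8)
      _ = (24 + C1 / β) * N ^ (-β) := by ring
  rw [hker]
  have h10 := norm_sub_norm_le (Psi s / s) (∫ v in Ioi (1:ℝ), hh s N v)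
  linarith

end

end Pool.Agent.H747R2.BeuA4c
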