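import Pool.Agent.H300R2.BH.Defs
import Pool.Agent.H442R2.EHI.Minor

/-!
# BH project, task T1: the large-sieve inequality in two variables, polynomial version (helper747)
-/

namespace Pool.Agent.H747R2.BH

open Finset Polynomial
open Pool.Agent.H469R2.NK (e norm_e e_add conj_e e_zero)
open Pool.Agent.H442R2.EHI
open Pool.Agent.H300R2.BH

namespace Aux

/-- summing the fibre bound over `k, k1` -/
lemma fibre_sum (G1 H2 : ℕ) (hG1 : 1 ≤ G1) (T : Finset ℕ) (p : ℕ → ℕ) (hT : ∀ k ∈ T, G1 ≤ p k)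
    (Δ α R : ℝ)
    (hR : (((T ×ˢ T).filter (fun kk : ℕ × ℕ =>
        nint ((((p kk.1 : ℤ) - (p kk.2 : ℤ) : ℤ) : ℝ) * α) ≤ Δ)).card : ℝ) ≤ R) :
    ∑ k ∈ T, ∑ k1 ∈ T, (if nint ((((p k1 : ℤ) - p k : ℤ) : ℝ) * α) ≤ Δ
      then (H2 : ℝ) / p k1 + 1 else 0) ≤ R * (H2 / G1 + 1) := by
  classical
  have hG0 : (0 : ℝ) < G1 := by exact_mod_cast hG1
  have h1 : ∑ k ∈ T, ∑ k1 ∈ T, (if nint ((((p k1 : ℤ) - p k : ℤ) : ℝ) * α) ≤ Δ
      then (H2 : ℝ) / p k1 + 1 else 0) ≤ ∑ k ∈ T, ∑ k1 ∈ T,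
      (if nint ((((p k1 : ℤ) - p k : ℤ) : ℝ) * α) ≤ Δ then (H2 : ℝ) / G1 + 1 else 0) := by
    refine sum_le_sum fun k _ => sum_le_sum fun k1 hk1 => ?_
    split_ifs with h
    · have h2 : (G1 : ℝ) ≤ p k1 := by exact_mod_cast hT k1 hk1
      have h3 : (H2 : ℝ) / p k1 ≤ (H2 : ℝ) / G1 :=
        div_le_div_of_nonneg_left (Nat.cast_nonneg _) hG0 h2
      linarith
    · exact le_rfl
  refine h1.trans ?_
  rw [sum_comm, ← sum_product', ← sum_filter, sum_const, nsmul_eq_mul]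
  exact mul_le_mul_of_nonneg_right hR (by positivity)

end Aux

open MinorAux in
/-- T1 (MinorP.lean). -/
theorem minorP (N D A G G1 : ℕ) (T : Finset ℕ) (p : ℕ → ℕ) (hp : ∀ k ∈ T, G1 ≤ p k ∧ p k ≤ G)
    (hG1 : 1 ≤ G1) (hG : G1 ≤ G) (hD : 4 ≤ D) (hN : 8 * D * G ≤ N) (hNA : 8 * A ≤ N)
    (hA : 2 * G ≤ A) (a0 : ℕ) (σ : ℤ) (hσ : σ = 1 ∨ σ = -1) (c : ℕ → ℂ) (w : ℕ → ℕ → ℂ)
    (hw : ∀ k h, ‖w k h‖ ≤ 1) (R : ℝ)
    (hR : ∀ h ∈ range N, c h ≠ 0 →
      (((T ×ˢ T).filter (fun kk : ℕ × ℕ =>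
        nint ((((p kk.1 : ℤ) - (p kk.2 : ℤ) : ℤ) : ℝ) * ((h : ℝ) / N)) ≤
          1 / (2 * (D : ℝ)) + (G : ℝ) / (2 * (A : ℝ)))).card : ℝ) ≤ R) :
    ∑ a ∈ Ioc a0 (a0 + A), ∑ d ∈ Ioc D (2 * D),
      ‖∑ k ∈ T, ∑ h ∈ range N, c h * w k h * e (-(((a : ℝ) + σ * d * p k) * h / N))‖ ^ 2 ≤
      100 * A * N * (R / G1) * ∑ h ∈ range N, ‖c h‖ ^ 2 := by
  classical
  -- parameters
  obtain ⟨H, hHdef⟩ : ∃ H, H = N / (2 * A) := ⟨_, rfl⟩
  obtain ⟨H2, hH2def⟩ : ∃ H2, H2 = N / (2 * D) := ⟨_, rfl⟩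
  have hG1' : 1 ≤ G := hG1.trans hG
  have hA1 : 2 ≤ A := by omega
  have hNpos : 0 < N := by omega
  have hH4 : 4 ≤ H := by
    rw [hHdef]; exact (Nat.le_div_iff_mul_le (by omega)).mpr (by omega)
  have hH24 : 4 * G ≤ H2 := by
    rw [hH2def]; exact (Nat.le_div_iff_mul_le (by omega)).mpr (by nlinarith)
  have hAH : 2 * A * H ≤ N := by rw [hHdef]; exact Nat.mul_div_le N (2 * A)
  have hDH : 2 * D * H2 ≤ N := by rw [hH2def]; exact Nat.mul_div_le N (2 * D)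
  have hKH : 4 * G * H ≤ N := le_trans (by nlinarith) hAH
  have h8 : 8 * H2 ≤ N := le_trans (by nlinarith) hDH
  have hNH : N < 2 * A * (H + 1) := by
    rw [hHdef]
    exact Nat.lt_mul_div_succ N (by omega)
  have hAN : A ≤ N := by omega
  have hDN : D ≤ N := by nlinarith
  have hN0 : (0 : ℝ) < N := by exact_mod_cast hNpos
  have hA0 : (0 : ℝ) < A := by exact_mod_cast (by omega : 0 < A)
  have hD0 : (0 : ℝ) < D := by exact_mod_cast (by omega : 0 < D)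
  have hH0 : (0 : ℝ) < H := by exact_mod_cast (by omega : 0 < H)
  have hH20 : (0 : ℝ) < H2 := by exact_mod_cast (by omega : 0 < H2)
  have hpi := Real.pi_pos
  -- the sums
  set S : ℕ → ℕ → ℂ := fun a d =>
    ∑ k ∈ T, ∑ h ∈ range N, c h * w k h * e (-(((a : ℝ) + σ * d * p k) * h / N)) with hS
  set W : ℕ → ℂ := fun a => ∑ j ∈ range H, e ((j : ℝ) * (((a : ℝ) + 1) / N)) with hW
  set V : ℕ → ℂ := fun d => ∑ j ∈ range H2, e ((j : ℝ) * (((d : ℝ) + 1) / N)) with hV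
  have hshift : ∀ (m n : ℕ) (f : ℕ → ℝ), ∑ a ∈ Ioc m (m + n), f a =
      ∑ a ∈ range n, f (m + 1 + a) := by
    intro m n f
    have : Ioc m (m + n) = Ico (m + 1) (m + n + 1) := by
      ext x; rw [mem_Ioc, mem_Ico]; omega
    rw [this, sum_Ico_eq_sum_range]
    congr 2; omega
  have hL : ∑ a ∈ Ioc a0 (a0 + A), ∑ d ∈ Ioc D (2 * D), ‖S a d‖ ^ 2 =
      ∑ a ∈ range A, ∑ d ∈ range D, ‖S (a0 + 1 + a) (D + 1 + d)‖ ^ 2 := by
    rw [hshift]
    apply sum_congr rfl; intro a _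
    rw [two_mul D, hshift]
  have hWb : ∀ a ∈ range A, (2 / Real.pi) * H ≤ ‖W a‖ := by
    intro a ha
    apply weight H (((a : ℝ) + 1) / N) (by positivity)
    have h1 : ((a : ℝ) + 1) ≤ A := by exact_mod_cast mem_range.mp ha
    have h2 : 2 * (A : ℝ) * H ≤ N := by exact_mod_cast hAH
    rw [mul_div_assoc', div_le_div_iff₀ hN0 (by norm_num)]
    nlinarith
  have hVb : ∀ d ∈ range D, (2 / Real.pi) * H2 ≤ ‖V d‖ := by
    intro d hd
    apply weight H2 (((d : ℝ) + 1) / N) (by positivity)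
    have h1 : ((d : ℝ) + 1) ≤ D := by exact_mod_cast mem_range.mp hd
    have h2 : 2 * (D : ℝ) * H2 ≤ N := by exact_mod_cast hDH
    rw [mul_div_assoc', div_le_div_iff₀ hN0 (by norm_num)]
    nlinarith
  -- the constant
  set κ : ℝ := (Real.pi ^ 2 / 4 / (H * H2)) ^ 2 with hκ
  have hstep : ∀ a ∈ range A, ∀ d ∈ range D, ‖S (a0 + 1 + a) (D + 1 + d)‖ ^ 2 ≤
      κ * ‖W a * V d * S (a0 + 1 + a) (D + 1 + d)‖ ^ 2 := by
    intro a ha d hd
    have h1 := hWb a ha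
    have h2 := hVb d hd
    have h3 : (2 / Real.pi) * H * ((2 / Real.pi) * H2) ≤ ‖W a‖ * ‖V d‖ :=
      mul_le_mul h1 h2 (by positivity) (norm_nonneg _)
    have h4 : ‖S (a0 + 1 + a) (D + 1 + d)‖ ≤
        (Real.pi ^ 2 / 4 / (H * H2)) * ‖W a * V d * S (a0 + 1 + a) (D + 1 + d)‖ := by
      rw [norm_mul, norm_mul, ← mul_assoc]
      have h5 : 1 ≤ (Real.pi ^ 2 / 4 / (H * H2)) * (‖W a‖ * ‖V d‖) := by
        calc (1 : ℝ) = (Real.pi ^ 2 / 4 / (H * H2)) * ((2 / Real.pi) * H * ((2 / Real.pi) * H2)) := by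
              field_simp; norm_num
          _ ≤ _ := mul_le_mul_of_nonneg_left h3 (by positivity)
      calc ‖S (a0 + 1 + a) (D + 1 + d)‖ = 1 * ‖S (a0 + 1 + a) (D + 1 + d)‖ := (one_mul _).symm
        _ ≤ _ := mul_le_mul_of_nonneg_right h5 (norm_nonneg _)
    calc ‖S (a0 + 1 + a) (D + 1 + d)‖ ^ 2 ≤
        ((Real.pi ^ 2 / 4 / (H * H2)) * ‖W a * V d * S (a0 + 1 + a) (D + 1 + d)‖) ^ 2 := by
          gcongr
      _ = _ := by rw [mul_pow]
  -- index set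
  set I : Finset (((ℕ × ℕ) × ℕ) × ℕ) := ((range H ×ˢ range H2) ×ˢ range N) ×ˢ T with hI
  set u : (((ℕ × ℕ) × ℕ) × ℕ) → ℤ := fun i => (i.1.1.1 : ℤ) - i.1.2 with hu
  set v : (((ℕ × ℕ) × ℕ) × ℕ) → ℤ := fun i => (i.1.1.2 : ℤ) - σ * p i.2 * i.1.2 with hv
  set z : (((ℕ × ℕ) × ℕ) × ℕ) → ℂ := fun i => c i.1.2 * w i.2 i.1.2 *
    e (((i.1.1.1 : ℝ) + i.1.1.2 - ((a0 : ℝ) + 1 + σ * (D + 1) * p i.2) * i.1.2) / N) with hz
  have hexp : ∀ a d : ℕ, W a * V d * S (a0 + 1 + a) (D + 1 + d) =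
      ∑ i ∈ I, z i * (e ((u i : ℝ) * a / N) * e ((v i : ℝ) * d / N)) := by
    intro a d
    have h1 : ∀ i ∈ I, z i * (e ((u i : ℝ) * a / N) * e ((v i : ℝ) * d / N)) =
        e ((i.1.1.1 : ℝ) * (((a : ℝ) + 1) / N)) * (e ((i.1.1.2 : ℝ) * (((d : ℝ) + 1) / N)) *
          (c i.1.2 * w i.2 i.1.2 * e (-((((a0 + 1 + a : ℕ) : ℝ) + σ * ((D + 1 + d : ℕ) : ℝ) * p i.2) *
            i.1.2 / N)))) := by
      intro i _
      simp only [hz, hu, hv]
      have h2 : e (((i.1.1.1 : ℝ) + i.1.1.2 - ((a0 : ℝ) + 1 + σ * (D + 1) * p i.2) * i.1.2) / N) *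
          (e ((((i.1.1.1 : ℤ) - i.1.2 : ℤ) : ℝ) * a / N) *
            e ((((i.1.1.2 : ℤ) - σ * p i.2 * i.1.2 : ℤ) : ℝ) * d / N)) =
          e ((i.1.1.1 : ℝ) * (((a : ℝ) + 1) / N)) * (e ((i.1.1.2 : ℝ) * (((d : ℝ) + 1) / N)) *
            e (-((((a0 + 1 + a : ℕ) : ℝ) + σ * ((D + 1 + d : ℕ) : ℝ) * p i.2) * i.1.2 / N))) := by
        rw [← e_add, ← e_add, ← e_add, ← e_add]
        congr 1
        push_cast
        field_simp
        ring
      rw [mul_assoc, h2]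
      ring
    rw [sum_congr rfl h1, hI, sum_product, sum_product, sum_product]
    simp only [hW, hV, hS]
    simp only [← mul_sum]
    rw [← sum_mul]
    rw [mul_assoc]
    congr 1
    rw [← sum_mul]
    congr 1
    rw [sum_comm]
  -- extension to full periods
  have hfull : ∑ a ∈ range A, ∑ d ∈ range D, ‖S (a0 + 1 + a) (D + 1 + d)‖ ^ 2 ≤
      κ * ∑ a ∈ range N, ∑ d ∈ range N,
        ‖∑ i ∈ I, z i * (e ((u i : ℝ) * a / N) * e ((v i : ℝ) * d / N))‖ ^ 2 := by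
    have hκ0 : 0 ≤ κ := by positivity
    calc ∑ a ∈ range A, ∑ d ∈ range D, ‖S (a0 + 1 + a) (D + 1 + d)‖ ^ 2
        ≤ ∑ a ∈ range A, ∑ d ∈ range D,
          κ * ‖W a * V d * S (a0 + 1 + a) (D + 1 + d)‖ ^ 2 :=
          sum_le_sum (fun a ha => sum_le_sum (hstep a ha))
      _ = κ * ∑ a ∈ range A, ∑ d ∈ range D, ‖W a * V d * S (a0 + 1 + a) (D + 1 + d)‖ ^ 2 := by
          rw [mul_sum]; apply sum_congr rfl; intro a _; rw [mul_sum]
      _ ≤ κ * ∑ a ∈ range N, ∑ d ∈ range N, ‖W a * V d * S (a0 + 1 + a) (D + 1 + d)‖ ^ 2 := by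
          apply mul_le_mul_of_nonneg_left _ hκ0
          calc ∑ a ∈ range A, ∑ d ∈ range D, ‖W a * V d * S (a0 + 1 + a) (D + 1 + d)‖ ^ 2
              ≤ ∑ a ∈ range A, ∑ d ∈ range N, ‖W a * V d * S (a0 + 1 + a) (D + 1 + d)‖ ^ 2 := by
                apply sum_le_sum; intro a _
                exact sum_le_sum_of_subset_of_nonneg (range_subset_range.mpr hDN)
                  (fun _ _ _ => by positivity)
            _ ≤ _ := sum_le_sum_of_subset_of_nonneg (range_subset_range.mpr hAN)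
                  (fun _ _ _ => by positivity)
      _ = _ := by
          congr 1
          apply sum_congr rfl; intro a _
          apply sum_congr rfl; intro d _
          rw [hexp]
  have hpars := parseval2 N hNpos I u v z
  -- counting
  have hcount : ∑ i ∈ I, ‖z i‖ ^ 2 *
        ((I.filter (fun i' => (N : ℤ) ∣ u i - u i' ∧ (N : ℤ) ∣ v i - v i')).card : ℝ) ≤
      (H * H2) * ((R * (H2 / G1 + 1)) * ∑ h ∈ range N, ‖c h‖ ^ 2) := by
    have hcard : ∀ i ∈ I,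
        ((I.filter (fun i' => (N : ℤ) ∣ u i - u i' ∧ (N : ℤ) ∣ v i - v i')).card : ℝ) =
        ∑ k1 ∈ T, ((((range H ×ˢ range H2) ×ˢ range N).filter (fun q : (ℕ × ℕ) × ℕ =>
          (N : ℤ) ∣ ((i.1.1.1 : ℤ) - i.1.2) - ((q.1.1 : ℤ) - q.2) ∧
          (N : ℤ) ∣ ((i.1.1.2 : ℤ) - σ * p i.2 * i.1.2) -
            ((q.1.2 : ℤ) - σ * p k1 * q.2))).card : ℝ) := by
      intro i _
      rw [card_filter, hI, sum_product_right]
      push_cast
      apply sum_congr rfl; intro k1 _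
      rw [card_filter]
      push_cast
      apply sum_congr rfl; intro p _
      simp only [hu, hv]
    have hzn : ∀ i ∈ I, ‖z i‖ ≤ ‖c i.1.2‖ := by
      intro i _
      simp only [hz]
      rw [norm_mul, norm_e, mul_one, norm_mul]
      exact mul_le_of_le_one_right (norm_nonneg _) (hw _ _)
    have h1 : ∑ i ∈ I, ‖z i‖ ^ 2 *
        ((I.filter (fun i' => (N : ℤ) ∣ u i - u i' ∧ (N : ℤ) ∣ v i - v i')).card : ℝ) ≤
        ∑ i ∈ I, ‖c i.1.2‖ ^ 2 *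
        ∑ k1 ∈ T, ((((range H ×ˢ range H2) ×ˢ range N).filter (fun q : (ℕ × ℕ) × ℕ =>
          (N : ℤ) ∣ ((i.1.1.1 : ℤ) - i.1.2) - ((q.1.1 : ℤ) - q.2) ∧
          (N : ℤ) ∣ ((i.1.1.2 : ℤ) - σ * p i.2 * i.1.2) -
            ((q.1.2 : ℤ) - σ * p k1 * q.2))).card : ℝ) := by
      apply sum_le_sum; intro i hi
      rw [hcard i hi]
      exact mul_le_mul_of_nonneg_right (pow_le_pow_left₀ (norm_nonneg _) (hzn i hi) 2)
        (Finset.sum_nonneg fun _ _ => Nat.cast_nonneg _)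
    refine h1.trans ?_
    rw [hI, sum_product, sum_product]
    have h2 : ∀ y ∈ range H ×ˢ range H2, ∑ h ∈ range N, ∑ k ∈ T, ‖c h‖ ^ 2 *
        ∑ k1 ∈ T, ((((range H ×ˢ range H2) ×ˢ range N).filter (fun q : (ℕ × ℕ) × ℕ =>
          (N : ℤ) ∣ ((y.1 : ℤ) - h) - ((q.1.1 : ℤ) - q.2) ∧
          (N : ℤ) ∣ ((y.2 : ℤ) - σ * p k * h) -
            ((q.1.2 : ℤ) - σ * p k1 * q.2))).card : ℝ) ≤
        (R * (H2 / G1 + 1)) * ∑ h ∈ range N, ‖c h‖ ^ 2 := by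
      intro y hy
      rw [mem_product, mem_range, mem_range] at hy
      rw [mul_sum]
      apply sum_le_sum; intro h hh
      rw [← mul_sum]
      by_cases hc : c h = 0
      · rw [hc]; simp
      · have h3 := hR h hh hc
        rw [mul_comm]
        apply mul_le_mul_of_nonneg_right _ (by positivity)
        refine le_trans ?_ (Aux.fibre_sum G1 H2 hG1 T p (fun k hk => (hp k hk).1) _ _ R h3)
        apply sum_le_sum; intro k hk
        apply sum_le_sum; intro k1 hk1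
        have hk1' := hp k1 hk1
        exact fibre N G D A H H2 hNpos (by omega) (by omega) hKH h8 hAH hDH σ hσ y.1 h (p k) (p k1) y.2
          (hG1.trans hk1'.1) hk1'.2 hy.1 hy.2
    calc _ ≤ ∑ y ∈ range H ×ˢ range H2,
          (R * (H2 / G1 + 1)) * ∑ h ∈ range N, ‖c h‖ ^ 2 := sum_le_sum h2
      _ = _ := by
          rw [sum_const, card_product, card_range, card_range, nsmul_eq_mul]
          push_cast; ring
  -- conclusion
  have hSS : 0 ≤ R * ∑ h ∈ range N, ‖c h‖ ^ 2 := by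
    by_cases hall : ∀ h ∈ range N, c h = 0
    · rw [sum_eq_zero (fun h hh => by rw [hall h hh]; simp)]; simp
    · push Not at hall
      obtain ⟨h, hh, hc⟩ := hall
      have : 0 ≤ R := le_trans (Nat.cast_nonneg _) (hR h hh hc)
      positivity
  rw [show (∑ a ∈ Ioc a0 (a0 + A), ∑ d ∈ Ioc D (2 * D),
      ‖∑ k ∈ T, ∑ h ∈ range N, c h * w k h * e (-(((a : ℝ) + σ * d * p k) * h / N))‖ ^ 2) =
      ∑ a ∈ Ioc a0 (a0 + A), ∑ d ∈ Ioc D (2 * D), ‖S a d‖ ^ 2 from rfl, hL]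
  refine hfull.trans ?_
  have hκ0 : 0 ≤ κ := by positivity
  have hG0 : (0 : ℝ) < G1 := by exact_mod_cast hG1
  have hGG : (G1 : ℝ) ≤ G := by exact_mod_cast hG
  have hK4 : 4 * (G : ℝ) ≤ H2 := by exact_mod_cast hH24
  calc κ * ∑ a ∈ range N, ∑ d ∈ range N,
        ‖∑ i ∈ I, z i * (e ((u i : ℝ) * a / N) * e ((v i : ℝ) * d / N))‖ ^ 2
      ≤ κ * ((N : ℝ) ^ 2 * ((H * H2) * ((R * (H2 / G1 + 1)) *
          ∑ h ∈ range N, ‖c h‖ ^ 2))) := by
        apply mul_le_mul_of_nonneg_left _ hκ0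
        refine hpars.trans ?_
        exact mul_le_mul_of_nonneg_left hcount (by positivity)
    _ = (κ * (N : ℝ) ^ 2 * (H * H2)) * (H2 / G1 + 1) *
          (R * ∑ h ∈ range N, ‖c h‖ ^ 2) := by ring
    _ ≤ (100 * A * N * (1 / G1)) * (R * ∑ h ∈ range N, ‖c h‖ ^ 2) := by
        apply mul_le_mul_of_nonneg_right _ hSS
        have e1 : κ * (N : ℝ) ^ 2 * (H * H2) = Real.pi ^ 4 / 16 * (N ^ 2 / (H * H2)) := by
          rw [hκ]; field_simp; ring
        rw [e1]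
        have e2 : ((H2 : ℝ) / G1 + 1) ≤ (5 / 4) * (H2 / G1) := by
          have h1 : (1 : ℝ) ≤ 1 / 4 * (H2 / G1) := by
            rw [← mul_div_assoc, le_div_iff₀ hG0]
            linarith
          linarith
        have e3 : Real.pi ^ 4 ≤ 99 := by
          have h1 := Real.pi_lt_d2
          have h2 : Real.pi ^ 2 ≤ 9.93 := by nlinarith
          have h3 : Real.pi ^ 4 = (Real.pi ^ 2) ^ 2 := by ring
          rw [h3]; nlinarith [sq_nonneg Real.pi]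
        have e4 : (N : ℝ) ≤ (5 / 2) * A * H := by
          have h1 : (N : ℝ) < 2 * A * (H + 1) := by exact_mod_cast hNH
          have h2 : (4 : ℝ) ≤ H := by exact_mod_cast hH4
          nlinarith
        calc Real.pi ^ 4 / 16 * ((N : ℝ) ^ 2 / (H * H2)) * ((H2 : ℝ) / G1 + 1)
            ≤ 99 / 16 * ((N : ℝ) ^ 2 / (H * H2)) * ((5 / 4) * ((H2 : ℝ) / G1)) := by
              gcongr
          _ = (495 / 64) * (1 / (G1 : ℝ)) * N * (N / H) := by
              field_simp; ring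
          _ ≤ (495 / 64) * (1 / (G1 : ℝ)) * N * ((5 / 2) * A) := by
              have : (N : ℝ) / H ≤ (5 / 2) * A := by rw [div_le_iff₀ hH0]; exact e4
              gcongr
          _ ≤ 100 * (A : ℝ) * N * (1 / (G1 : ℝ)) := by
              have : 0 ≤ A * N * (1 / (G1 : ℝ)) := by positivity
              nlinarith
    _ = _ := by ring

end Pool.Agent.H747R2.BH
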