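import Mathlib
import Pool.Agent.H410R2.ENIface
import Pool.Agent.H410R2.ACCore2
import Pool.Agent.H647R2.ACNT
import Pool.Agent.H143R2.ACFinal

/-!
# EN6, part 1: lemmas (helper747)
-/

set_option autoImplicit false

open Finset Filter

namespace Pool.Agent.H747R2.EN6

open Pool.Agent.H410R2.AC Pool.Agent.H410R2.EN

/-- Chinese remainder theorem -/
lemma crt (Q b : ℕ) (hb : b < Q) (c : ℕ → ℕ) (T : Finset ℕ)
    (hT : ∀ p ∈ T, p.Prime ∧ ¬ p ∣ Q ∧ c p < p) :
    ∃ r : ℕ, ∀ n : ℕ, (n % Q = b ∧ ∀ p ∈ T, n % p = c p) ↔ n ≡ r [MOD Q * ∏ p ∈ T, p] := by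
  induction T using Finset.induction_on with
  | empty =>
    refine ⟨b, fun n => ?_⟩
    simp [Nat.ModEq, Nat.mod_eq_of_lt hb]
  | insert p T hp ih =>
    obtain ⟨r, hr⟩ := ih (fun q hq => hT q (Finset.mem_insert_of_mem hq))
    obtain ⟨hpp, hpQ, hcp⟩ := hT p (Finset.mem_insert_self _ _)
    have hcop : Nat.Coprime (Q * ∏ q ∈ T, q) p := by
      refine Nat.Coprime.mul_left ?_ ?_
      · exact ((Nat.Prime.coprime_iff_not_dvd hpp).2 hpQ).symm
      · refine Nat.Coprime.prod_left fun q hq => ?_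
        have hqp := (hT q (Finset.mem_insert_of_mem hq)).1
        exact (Nat.coprime_primes hqp hpp).2 (fun h => hp (h ▸ hq))
    obtain ⟨r', h1, h2⟩ := Nat.chineseRemainder hcop r (c p)
    refine ⟨r', fun n => ?_⟩
    rw [Finset.prod_insert hp, show Q * (p * ∏ q ∈ T, q) = (Q * ∏ q ∈ T, q) * p by ring,
      ← Nat.modEq_and_modEq_iff_modEq_mul hcop]
    have e1 : n ≡ r' [MOD Q * ∏ q ∈ T, q] ↔ n ≡ r [MOD Q * ∏ q ∈ T, q] :=
      ⟨fun h => h.trans h1, fun h => h.trans h1.symm⟩
    have e2 : n ≡ r' [MOD p] ↔ n % p = c p := by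
      constructor
      · intro h
        have := h.trans h2
        unfold Nat.ModEq at this
        rw [Nat.mod_eq_of_lt hcp] at this
        exact this
      · intro h
        refine Nat.ModEq.trans ?_ h2.symm
        unfold Nat.ModEq
        rw [Nat.mod_eq_of_lt hcp, h]
    rw [e1, e2, ← hr n]
    constructor
    · rintro ⟨a1, a2⟩
      exact ⟨⟨a1, fun q hq => a2 q (Finset.mem_insert_of_mem hq)⟩, a2 p (Finset.mem_insert_self _ _)⟩
    · rintro ⟨⟨a1, a2⟩, a3⟩
      refine ⟨a1, fun q hq => ?_⟩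
      rcases Finset.mem_insert.1 hq with h | h
      · rw [h]; exact a3
      · exact a2 q h

lemma card_modEq (N q r : ℕ) (hq : 0 < q) :
    |(((range N).filter (fun n => n ≡ r [MOD q])).card : ℝ) - (N : ℝ) / q| ≤ 1 := by
  rw [← Nat.count_eq_card_filter_range, Nat.count_modEq_card _ hq]
  have hq0 : (0 : ℝ) < q := by exact_mod_cast hq
  have h1 : ((N / q : ℕ) : ℝ) ≤ (N : ℝ) / q := Nat.cast_div_le
  have h2 : (N : ℝ) / q < (N / q : ℕ) + 1 := by
    rw [div_lt_iff₀ hq0]
    have h2 : N < (N / q + 1) * q := by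
      have := Nat.lt_div_mul_add (a := N) hq
      nlinarith
    exact_mod_cast h2
  rw [abs_le]
  split_ifs with h
  · push_cast
    constructor <;> linarith
  · push_cast
    constructor <;> linarith

/-- equidistribution of the integers `n < N` in a class mod `Q` -/
lemma equid (Q b N z z' D0 : ℕ) (hb : b < Q) (hQ : ∀ p ∈ PP z z', ¬ p ∣ Q) :
    Equid (fun p _ => 1 / (p : ℝ)) (fun n => if n % Q = b then 1 else 0) N ((N : ℝ) / Q)
      (PP z z') D0 (fun _ => 1) := by
  intro T hT _ c hc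
  have hQ0 : 0 < Q := by omega
  obtain ⟨r, hr⟩ := crt Q b hb c T (fun p hp => ⟨PP_prime (hT hp), hQ p (hT hp), hc p hp⟩)
  have h1 : ∑ m ∈ (range N).filter (fun m => ∀ p ∈ T, m % p = c p), (if m % Q = b then (1 : ℝ) else 0)
      = (((range N).filter (fun n => n ≡ r [MOD Q * ∏ p ∈ T, p])).card : ℝ) := by
    rw [← Finset.sum_filter, Finset.filter_filter, Finset.sum_const, nsmul_eq_mul, mul_one]
    congr 2
    refine Finset.filter_congr fun n _ => ?_
    rw [← hr n]
    exact and_comm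
  have hprod : 0 < ∏ p ∈ T, p := Finset.prod_pos fun p hp => (PP_prime (hT hp)).pos
  have h2 := card_modEq N (Q * ∏ p ∈ T, p) r (Nat.mul_pos hQ0 hprod)
  show |∑ m ∈ (range N).filter (fun m => ∀ p ∈ T, m % p = c p), (if m % Q = b then (1 : ℝ) else 0) -
    (N : ℝ) / Q * ∏ p ∈ T, (1 / (p : ℝ))| ≤ 1
  rw [h1]
  have h3 : (N : ℝ) / Q * ∏ p ∈ T, (1 / (p : ℝ)) = (N : ℝ) / ((Q * ∏ p ∈ T, p : ℕ) : ℝ) := by
    push_cast
    rw [Finset.prod_div_distrib, Finset.prod_const_one, div_mul_div_comm, mul_one]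
  rw [h3]
  exact h2

/-- total error -/
lemma et_le (K z z' D0 : ℕ) (hK : K ≤ z) : ET K (PP z z') D0 (fun _ => 1) ≤ (D0 : ℝ) ^ 2 := by
  unfold ET
  have h1 : ∀ T ∈ (PP z z').powerset.filter (fun T : Finset ℕ => ∏ p ∈ T, p ≤ D0),
      (K : ℝ) ^ T.card * 1 ≤ D0 := by
    intro T hT
    rw [Finset.mem_filter, Finset.mem_powerset] at hT
    have h2 : K ^ T.card ≤ ∏ p ∈ T, p := by
      rw [← Finset.prod_const]
      exact Finset.prod_le_prod' fun p hp => hK.trans (PP_gt (hT.1 hp)).le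
    rw [mul_one]
    exact_mod_cast h2.trans hT.2
  refine (Finset.sum_le_sum h1).trans ?_
  rw [Finset.sum_const, nsmul_eq_mul, sq]
  refine mul_le_mul_of_nonneg_right ?_ (Nat.cast_nonneg _)
  have h3 : ((PP z z').powerset.filter (fun T : Finset ℕ => ∏ p ∈ T, p ≤ D0)).card ≤
      (Finset.Icc 1 D0).card := by
    refine Finset.card_le_card_of_injOn (fun R => ∏ p ∈ R, p) ?_ ?_
    · intro T hT
      have hT' := Finset.mem_filter.1 (Finset.mem_coe.1 hT)
      rw [Finset.mem_powerset] at hT'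
      simp only [Finset.coe_Icc, Set.mem_Icc]
      refine ⟨?_, hT'.2⟩
      exact Finset.prod_pos fun p hp => (PP_prime (hT'.1 hp)).pos
    · intro T hT T' hT' he
      have hT1 := Finset.mem_powerset.1 (Finset.mem_filter.1 (Finset.mem_coe.1 hT)).1
      have hT2 := Finset.mem_powerset.1 (Finset.mem_filter.1 (Finset.mem_coe.1 hT')).1
      exact prodset_inj (fun p hp => PP_prime (hT1 hp)) (fun p hp => PP_prime (hT2 hp)) he
  rw [Nat.card_Icc] at h3
  have h4 : ((PP z z').powerset.filter (fun T : Finset ℕ => ∏ p ∈ T, p ≤ D0)).card ≤ D0 := by omega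
  exact_mod_cast h4

/-- the class of a position -/
def rh (p a : ℕ) : ℕ := ((Equiv.intEquivNat.symm a) % (p : ℤ)).toNat

lemma rh_lt {p : ℕ} (hp : 0 < p) (a : ℕ) : rh p a < p := by
  unfold rh
  have h1 := Int.emod_nonneg (Equiv.intEquivNat.symm a) (show (p : ℤ) ≠ 0 by omega)
  have h2 := Int.emod_lt_of_pos (Equiv.intEquivNat.symm a) (show (0 : ℤ) < p by omega)
  omega

lemma rh_iff {p : ℕ} (hp : 0 < p) (m a : ℕ) :
    m % p = rh p a ↔ (p : ℤ) ∣ (m : ℤ) - Equiv.intEquivNat.symm a := by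
  unfold rh
  have h1 := Int.emod_nonneg (Equiv.intEquivNat.symm a) (show (p : ℤ) ≠ 0 by omega)
  rw [← Int.modEq_iff_dvd]
  unfold Int.ModEq
  have h2 : ((m % p : ℕ) : ℤ) = (m : ℤ) % (p : ℤ) := Int.natCast_mod m p
  rw [← h2]
  omega

lemma rh_collision {p : ℕ} (hp : 0 < p) {a a' : ℕ} (h : rh p a = rh p a') :
    p ∣ (Equiv.intEquivNat.symm a - Equiv.intEquivNat.symm a').natAbs := by
  unfold rh at h
  have h1 := Int.emod_nonneg (Equiv.intEquivNat.symm a) (show (p : ℤ) ≠ 0 by omega)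
  have h2 := Int.emod_nonneg (Equiv.intEquivNat.symm a') (show (p : ℤ) ≠ 0 by omega)
  have h3 : (Equiv.intEquivNat.symm a') % (p : ℤ) = (Equiv.intEquivNat.symm a) % (p : ℤ) := by omega
  have h4 : (Equiv.intEquivNat.symm a') ≡ (Equiv.intEquivNat.symm a) [ZMOD (p : ℤ)] := h3
  rw [Int.modEq_iff_dvd] at h4
  exact Int.natCast_dvd.1 h4

lemma dl_le {z z' N K : ℕ} (U : Finset ℕ) (hU : ∀ a ∈ U, |Equiv.intEquivNat.symm a| ≤ (N : ℤ))
    (hUK : U.card ≤ K) (hz : 2 ≤ z) :
    dl (fun p => p) rh (PP z z') U ≤ 2 / (z : ℝ) + (K : ℝ) ^ 2 *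
      (Real.log ((2 * N : ℕ) : ℝ) / (z * Real.log z)) := by
  unfold dl
  refine add_le_add (Pool.Agent.H647R2.ACNT.nt4 z z' (by omega)) ?_
  set t : ℝ := Real.log ((2 * N : ℕ) : ℝ) / (z * Real.log z) with ht
  have ht0 : 0 ≤ t := by
    have h1 : 0 ≤ Real.log ((2 * N : ℕ) : ℝ) := Real.log_natCast_nonneg _
    have h2 : 0 ≤ Real.log (z : ℝ) := Real.log_natCast_nonneg z
    positivity
  have hpos : ∀ p ∈ PP z z', (0 : ℝ) ≤ 1 / ((p : ℝ) - 1) := by
    intro p hp
    have h2 := (PP_prime hp).two_le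
    have : (2 : ℝ) ≤ p := by exact_mod_cast h2
    have : (0 : ℝ) < (p : ℝ) - 1 := by linarith
    positivity
  calc ∑ p ∈ (PP z z').filter (fun p => (∃ a ∈ U, ∃ b ∈ U, a ≠ b ∧ rh p a = rh p b) ∨
          ∃ a ∈ U, rh p a = p), 1 / ((p : ℝ) - 1)
      ≤ ∑ p ∈ PP z z', ∑ x ∈ (U ×ˢ U).filter (fun x => x.1 ≠ x.2),
          (if p ∣ (Equiv.intEquivNat.symm x.1 - Equiv.intEquivNat.symm x.2).natAbs
            then 1 / ((p : ℝ) - 1) else 0) := by
        rw [Finset.sum_filter]
        refine Finset.sum_le_sum (fun p hp => ?_)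
        split_ifs with hc
        · have hp0 : 0 < p := (PP_prime hp).pos
          rcases hc with ⟨a, ha, a', ha', hne, he⟩ | ⟨a, ha, he⟩
          · have hd := rh_collision hp0 he
            have hmem : (a, a') ∈ (U ×ˢ U).filter (fun x => x.1 ≠ x.2) := by
              simp [ha, ha', hne]
            refine le_trans ?_ (Finset.single_le_sum (f := fun x : ℕ × ℕ =>
              (if p ∣ (Equiv.intEquivNat.symm x.1 - Equiv.intEquivNat.symm x.2).natAbs
                then 1 / ((p : ℝ) - 1) else 0)) ?_ hmem)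
            · exact (if_pos hd).ge
            · intro x _
              show (0 : ℝ) ≤ (if p ∣ (Equiv.intEquivNat.symm x.1 - Equiv.intEquivNat.symm x.2).natAbs
                then 1 / ((p : ℝ) - 1) else 0)
              split_ifs
              · exact hpos p hp
              · exact le_rfl
          · exact absurd he (rh_lt hp0 a).ne
        · refine Finset.sum_nonneg (fun x _ => ?_)
          split_ifs
          · exact hpos p hp
          · exact le_rfl
    _ = ∑ x ∈ (U ×ˢ U).filter (fun x => x.1 ≠ x.2),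
          ∑ p ∈ (PP z z').filter (fun p : ℕ => p ∣
            (Equiv.intEquivNat.symm x.1 - Equiv.intEquivNat.symm x.2).natAbs),
            (1 : ℝ) / ((p : ℝ) - 1) := by
        rw [Finset.sum_comm]
        refine Finset.sum_congr rfl (fun x _ => ?_)
        rw [Finset.sum_filter]
    _ ≤ ∑ x ∈ (U ×ˢ U).filter (fun x => x.1 ≠ x.2), t := by
        refine Finset.sum_le_sum (fun x hx => ?_)
        have hx1 := (Finset.mem_filter.mp hx).1
        have hx2 := (Finset.mem_filter.mp hx).2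
        have hx3 := Finset.mem_product.mp hx1
        have ha := hU _ hx3.1
        have hb := hU _ hx3.2
        have hne : Equiv.intEquivNat.symm x.1 ≠ Equiv.intEquivNat.symm x.2 :=
          fun h => hx2 (Equiv.intEquivNat.symm.injective h)
        rw [abs_le] at ha hb
        refine Pool.Agent.H647R2.ACNT.nt5 z z' _ (2 * N) hz ?_ ?_
        · omega
        · omega
    _ = ((U ×ˢ U).filter (fun x => x.1 ≠ x.2)).card * t := by
        rw [Finset.sum_const, nsmul_eq_mul]
    _ ≤ (K : ℝ) ^ 2 * t := by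
        refine mul_le_mul_of_nonneg_right ?_ ht0
        have h1 : ((U ×ˢ U).filter (fun x => x.1 ≠ x.2)).card ≤ K ^ 2 := by
          refine (Finset.card_filter_le _ _).trans ?_
          rw [Finset.card_product, sq]
          exact Nat.mul_le_mul hUK hUK
        exact_mod_cast h1

/-- the number of residues prime to `Q`, for an integer shift -/
lemma count_coprime_int (Q : ℕ) (a : ℤ) (hQ : 1 ≤ Q) :
    ((range Q).filter (fun b : ℕ => IsCoprime ((b : ℤ) - a) (Q : ℤ))).card = Q.totient := by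
  have h1 := Int.emod_nonneg a (show (Q : ℤ) ≠ 0 by omega)
  rw [← Pool.Agent.H647R2.ACNT.count_coprime Q (a % Q).toNat hQ]
  congr 1
  refine Finset.filter_congr fun b _ => ?_
  have h2 : (((a % Q).toNat : ℕ) : ℤ) = a % Q := Int.toNat_of_nonneg h1
  rw [h2]
  have h3 : (b : ℤ) - a % Q = ((b : ℤ) - a) + (a / Q) * Q := by
    have := Int.emod_add_mul_ediv a Q
    linarith
  rw [h3]
  exact (IsCoprime.add_mul_right_left_iff).symm

lemma log_le_Pi1 (H : ℕ) : Real.log H ≤ Pi1 (Pool.Agent.H647R2.ACNT.SH H) := by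
  refine (Pool.Agent.H647R2.ACNT.log_le_sum H).trans ?_
  apply Pool.Agent.H647R2.ACNT.sum_factored
  · intro p hp
    exact (Finset.mem_filter.1 hp).2
  · intro n hn
    rw [Finset.mem_Icc] at hn
    rw [Nat.mem_factoredNumbers_iff_primeFactors_subset]
    refine ⟨by omega, ?_⟩
    intro p hp
    have h3 := Nat.prime_of_mem_primeFactors hp
    have h4 := Nat.le_of_mem_primeFactors hp
    unfold Pool.Agent.H647R2.ACNT.SH
    rw [Finset.mem_filter, Finset.mem_range]
    exact ⟨by omega, h3⟩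

open Classical in
/-- at least half of the classes are good -/
lemma good_classes (H : ℕ) (A : Finset ℤ) (Y : ℝ) (hY : 0 < Y) (hA : (A.card : ℝ) ≤ Y) :
    (primorial H : ℝ) / 2 ≤ (((range (primorial H)).filter (fun b : ℕ =>
      ((A.filter (fun a : ℤ => IsCoprime ((b : ℤ) - a) (primorial H : ℤ))).card : ℝ) *
        Real.log H ≤ 2 * Y)).card : ℝ) := by
  set Q := primorial H with hQ
  have hQ0 : 0 < Q := primorial_pos H
  set f : ℕ → ℝ := fun b =>
    ((A.filter (fun a : ℤ => IsCoprime ((b : ℤ) - a) (Q : ℤ))).card : ℝ) * Real.log H with hf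
  have hlog : 0 ≤ Real.log H := Real.log_natCast_nonneg H
  have h1 : ∑ b ∈ range Q, (A.filter (fun a : ℤ => IsCoprime ((b : ℤ) - a) (Q : ℤ))).card =
      A.card * Q.totient := by
    simp_rw [Finset.card_filter]
    rw [Finset.sum_comm]
    simp_rw [← Finset.card_filter]
    rw [Finset.sum_congr rfl (fun a _ => count_coprime_int Q a hQ0), Finset.sum_const, smul_eq_mul]
  have h3 : (Q.totient : ℝ) * Real.log H ≤ Q := by
    rw [hQ, ← Pool.Agent.H647R2.ACNT.totient_primorial H]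
    exact mul_le_mul_of_nonneg_left (log_le_Pi1 H) (Nat.cast_nonneg _)
  have h2 : ∑ b ∈ range Q, f b ≤ Y * Q := by
    rw [hf, ← Finset.sum_mul]
    have h5 : (∑ b ∈ range Q,
        ((A.filter (fun a : ℤ => IsCoprime ((b : ℤ) - a) (Q : ℤ))).card : ℝ)) =
        (A.card : ℝ) * Q.totient := by
      exact_mod_cast h1
    rw [h5, mul_assoc]
    exact mul_le_mul hA h3 (mul_nonneg (Nat.cast_nonneg _) hlog) hY.le
  have h4 : (((range Q).filter (fun b => ¬ f b ≤ 2 * Y)).card : ℝ) * (2 * Y) ≤ Y * Q := by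
    calc (((range Q).filter (fun b => ¬ f b ≤ 2 * Y)).card : ℝ) * (2 * Y)
        = ∑ _b ∈ (range Q).filter (fun b => ¬ f b ≤ 2 * Y), 2 * Y := by
          rw [Finset.sum_const, nsmul_eq_mul]
      _ ≤ ∑ b ∈ (range Q).filter (fun b => ¬ f b ≤ 2 * Y), f b := by
          refine Finset.sum_le_sum fun b hb => ?_
          exact (not_le.1 (Finset.mem_filter.1 hb).2).le
      _ ≤ ∑ b ∈ range Q, f b := by
          refine Finset.sum_le_sum_of_subset_of_nonneg (Finset.filter_subset _ _) fun b _ _ => ?_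
          exact mul_nonneg (Nat.cast_nonneg _) hlog
      _ ≤ Y * Q := h2
  have h6 : (((range Q).filter (fun b => ¬ f b ≤ 2 * Y)).card : ℝ) ≤ Q / 2 := by
    rw [le_div_iff₀ (by norm_num : (0 : ℝ) < 2)]
    have : Y * ((((range Q).filter (fun b => ¬ f b ≤ 2 * Y)).card : ℝ) * 2) ≤ Y * Q := by linarith
    exact le_of_mul_le_mul_left this hY
  have h7 : ((range Q).filter (fun b => f b ≤ 2 * Y)).card +
      ((range Q).filter (fun b => ¬ f b ≤ 2 * Y)).card = Q := by
    rw [Finset.card_filter_add_card_filter_not, Finset.card_range]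
  have h8 : (((range Q).filter (fun b => f b ≤ 2 * Y)).card : ℝ) +
      (((range Q).filter (fun b => ¬ f b ≤ 2 * Y)).card : ℝ) = Q := by
    exact_mod_cast h7
  linarith

/-- few `n` are close to a point of `A` -/
lemma near (N z : ℕ) (A : Finset ℤ) :
    ((range N).filter (fun n : ℕ => ∃ a ∈ A, |(n : ℤ) - a| ≤ z)).card ≤ A.card * (2 * z + 1) := by
  classical
  have h1 : ((range N).filter (fun n : ℕ => ∃ a ∈ A, |(n : ℤ) - a| ≤ z)) ⊆
      A.biUnion (fun a => (range N).filter (fun n : ℕ => |(n : ℤ) - a| ≤ z)) := by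
    intro n hn
    rw [Finset.mem_filter] at hn
    obtain ⟨hn1, a, ha, hna⟩ := hn
    rw [Finset.mem_biUnion]
    exact ⟨a, ha, Finset.mem_filter.2 ⟨hn1, hna⟩⟩
  refine (Finset.card_le_card h1).trans ?_
  refine Finset.card_biUnion_le_card_mul _ _ _ fun a _ => ?_
  have h2 : ((range N).filter (fun n : ℕ => |(n : ℤ) - a| ≤ z)).card ≤
      (Finset.Icc (a - z) (a + z)).card := by
    refine Finset.card_le_card_of_injOn (fun n : ℕ => (n : ℤ)) ?_ ?_
    · intro n hn
      have hn' := (Finset.mem_filter.1 (Finset.mem_coe.1 hn)).2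
      rw [abs_le] at hn'
      simp only [Finset.coe_Icc, Set.mem_Icc]
      omega
    · intro n _ m _ h
      have h' : (n : ℤ) = (m : ℤ) := h
      exact_mod_cast h'
  rw [Int.card_Icc] at h2
  omega

end Pool.Agent.H747R2.EN6
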