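import Mathlib
import Pool.Agent.H410R2.ENIface
import Pool.Agent.H747R2.EN6a

/-!
# EN6: `ZFinal` from `CoreW` (helper747)
-/

set_option autoImplicit false

open Finset Filter

namespace Pool.Agent.H747R2.EN6

open Pool.Agent.H410R2.AC Pool.Agent.H410R2.EN

/-- the size bound -/
lemma hsize (N : ℕ) (hN : 2 ≤ N) (C1 : ℝ) (hC1 : 2 ≤ C1) (P : Finset ℕ) (hP : ∀ p ∈ P, p.Prime)
    (m a : ℕ) (hm : m < N) (ha : |Equiv.intEquivNat.symm a| ≤ (N : ℤ)) :
    (∏ p ∈ P.filter (fun p => m % p = rh p a), (p : ℝ)) ≤ (N : ℝ) ^ C1 ∨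
      ∀ p ∈ P, m % p = rh p a := by
  by_cases h : (m : ℤ) = Equiv.intEquivNat.symm a
  · right
    intro p hp
    rw [rh_iff (hP p hp).pos, h, sub_self]
    exact dvd_zero _
  · left
    have h1 : ∏ p ∈ P.filter (fun p => m % p = rh p a), p ∣
        ((m : ℤ) - Equiv.intEquivNat.symm a).natAbs := by
      apply Finset.prod_primes_dvd
      · intro p hp
        exact (hP p (Finset.mem_filter.1 hp).1).prime
      · intro p hp
        rw [Finset.mem_filter] at hp
        exact Int.natCast_dvd.1 ((rh_iff (hP p hp.1).pos m a).1 hp.2)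
    rw [abs_le] at ha
    have h2 := Nat.le_of_dvd (by omega) h1
    have h3 : ((m : ℤ) - Equiv.intEquivNat.symm a).natAbs ≤ 2 * N := by omega
    have h4 : (((∏ p ∈ P.filter (fun p => m % p = rh p a), p : ℕ)) : ℝ) ≤ 2 * N := by
      exact_mod_cast h2.trans h3
    push_cast at h4
    have hN2 : (2 : ℝ) ≤ N := by exact_mod_cast hN
    refine h4.trans ?_
    calc 2 * (N : ℝ) ≤ (N : ℝ) ^ (2 : ℝ) := by
          rw [Real.rpow_two]; nlinarith
      _ ≤ (N : ℝ) ^ C1 := Real.rpow_le_rpow_of_exponent_le (by linarith) hC1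

/-- the asymptotic requirements -/
lemma asymp (C c0 : ℝ) (hC : 1 ≤ C) (hc0 : 0 < c0) (K : ℕ) (X0 : ℝ) :
    ∀ᶠ N : ℕ in atTop, X0 ≤ (N : ℝ) ∧ 2 ≤ N ∧ K ≤ HH N ∧ 2 ≤ HH N ∧ HH N ≤ zz N ∧
      ((zz N : ℕ) : ℝ) ^ 2 ≤ (N : ℝ) / (primorial (HH N)) / Real.log N ^ K ∧
      2 / (HH N : ℝ) + (K : ℝ) ^ 2 * (Real.log ((2 * N : ℕ) : ℝ) / (HH N * Real.log (HH N))) ≤
        1 / (K + 1) ∧
      C * Real.log N * (2 * (zz N : ℝ) + 1) ≤ c0 / 4 * N ∧ 1 ≤ Real.log (N : ℝ) := by
  have hdd := (dd_tendsto K).const_mul 2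
  rw [mul_zero] at hdd
  have hK1 : (0 : ℝ) < 1 / (K + 1) := by positivity
  filter_upwards [tendsto_natCast_atTop_atTop.eventually_ge_atTop X0, eventually_ge_atTop 2,
    tendsto_HH.eventually_ge_atTop ((K : ℝ)), tendsto_HH.eventually_ge_atTop 2,
    log_pow_small K 1 (1 / 10) (by norm_num), log_pow_small 1 1 (1 / 10) (by norm_num),
    log_pow_small 1 (12 * C / c0) (1 / 10) (by norm_num),
    hdd.eventually (eventually_le_nhds hK1),
    tendsto_log_nat.eventually_ge_atTop 1] with N a1 a2 a3 a4 a5 a6 a7 a8 a9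
  have hN1 : (1 : ℝ) ≤ N := by exact_mod_cast (by omega : 1 ≤ N)
  have hN0 : (0 : ℝ) < N := by linarith
  have hlog : 0 < Real.log N := by linarith
  have hz1 : ((zz N : ℕ) : ℝ) ≤ (N : ℝ) ^ (1 / 10 : ℝ) := Nat.floor_le (by positivity)
  have hx : (1 : ℝ) ≤ (N : ℝ) ^ (1 / 10 : ℝ) := Real.one_le_rpow hN1 (by norm_num)
  refine ⟨a1, a2, by exact_mod_cast a3, by exact_mod_cast a4, ?_, ?_, ?_, ?_, a9⟩
  · apply Nat.floor_le_floor
    rw [pow_one, one_mul] at a6
    linarith
  · have hQN := Pool.Agent.H143R2.ACF.primorial_bound (N := N) (H := HH N) (by omega) (HH_le N)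
    have hQ0 : (0 : ℝ) < primorial (HH N) := by exact_mod_cast primorial_pos _
    rw [le_div_iff₀ (by positivity), le_div_iff₀ hQ0]
    rw [one_mul] at a5
    calc ((zz N : ℕ) : ℝ) ^ 2 * Real.log N ^ K * primorial (HH N)
        ≤ ((N : ℝ) ^ (1 / 10 : ℝ)) ^ 2 * (N : ℝ) ^ (1 / 10 : ℝ) * (N : ℝ) ^ (1 / 50 : ℝ) := by
          gcongr
      _ = (N : ℝ) ^ (1 / 10 + 1 / 10 + 1 / 10 + 1 / 50 : ℝ) := by
          rw [Real.rpow_add hN0, Real.rpow_add hN0, Real.rpow_add hN0]
          ring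
      _ ≤ (N : ℝ) ^ (1 : ℝ) := Real.rpow_le_rpow_of_exponent_le hN1 (by norm_num)
      _ = N := Real.rpow_one _
  · refine le_trans ?_ a8
    unfold dd
    have hl : 0 < Real.log (HH N : ℝ) := Real.log_pos (by linarith)
    have hH0 : (0 : ℝ) < HH N := by linarith
    have h2N : Real.log ((2 * N : ℕ) : ℝ) ≤ 2 * Real.log N := by
      push_cast
      rw [Real.log_mul (by norm_num) hN0.ne']
      have hN2 : (2 : ℝ) ≤ N := by exact_mod_cast a2
      have := Real.log_le_log (by norm_num) hN2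
      linarith
    have h3 : Real.log ((2 * N : ℕ) : ℝ) / (HH N * Real.log (HH N)) ≤
        2 * (Real.log N / (HH N * Real.log (HH N))) := by
      rw [← mul_div_assoc]
      gcongr
    have h4 : (K : ℝ) ^ 2 ≤ (2 * K + 1) ^ 2 := by
      have : (0 : ℝ) ≤ K := Nat.cast_nonneg K
      nlinarith
    have h5 : 0 ≤ Real.log N / (HH N * Real.log (HH N)) := by positivity
    have h6 : 0 ≤ 2 / (HH N : ℝ) := by positivity
    calc 2 / (HH N : ℝ) + (K : ℝ) ^ 2 * (Real.log ((2 * N : ℕ) : ℝ) / (HH N * Real.log (HH N)))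
        ≤ 2 / (HH N : ℝ) + (2 * K + 1) ^ 2 * (2 * (Real.log N / (HH N * Real.log (HH N)))) := by
          gcongr
      _ ≤ 2 * (2 / (HH N : ℝ) + (2 * K + 1) ^ 2 * (Real.log N / (HH N * Real.log (HH N)))) := by
          linarith
  · rw [pow_one] at a7
    have h1 : C * Real.log N ≤ c0 / 12 * (N : ℝ) ^ (1 / 10 : ℝ) := by
      have h2 : C * Real.log N = c0 / 12 * (12 * C / c0 * Real.log N) := by
        field_simp
      rw [h2]
      exact mul_le_mul_of_nonneg_left a7 (by positivity)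
    calc C * Real.log N * (2 * (zz N : ℝ) + 1)
        ≤ (c0 / 12 * (N : ℝ) ^ (1 / 10 : ℝ)) * (3 * (N : ℝ) ^ (1 / 10 : ℝ)) := by
          refine mul_le_mul h1 (by linarith) (by positivity) (by positivity)
      _ = c0 / 4 * (N : ℝ) ^ (1 / 10 + 1 / 10 : ℝ) := by
          rw [Real.rpow_add hN0]; ring
      _ ≤ c0 / 4 * (N : ℝ) ^ (1 : ℝ) := by
          refine mul_le_mul_of_nonneg_left ?_ (by positivity)
          exact Real.rpow_le_rpow_of_exponent_le hN1 (by norm_num)
      _ = c0 / 4 * N := by rw [Real.rpow_one]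

open Classical in
/-- EN6 -/
theorem zFinal_of (hcore : CoreW) : ZFinal := by
  intro C'
  set C : ℝ := max C' 1 with hCdef
  have hC1 : 1 ≤ C := le_max_right _ _
  obtain ⟨c0, hc0, K, hK, X0, hX0⟩ := hcore (2 * C) (1 / 10) (by linarith) (by norm_num) (by norm_num)
  refine ⟨c0 / 4, by positivity, ?_⟩
  obtain ⟨N₀, hN₀⟩ := eventually_atTop.1 (asymp C c0 hC1 hc0 K X0)
  refine ⟨N₀, fun N hN A hA hAC' => ?_⟩
  obtain ⟨b1, b2, b3, b4, b5, b6, b7, b8, b9⟩ := hN₀ N hN
  have hN1 : (1 : ℝ) ≤ N := by exact_mod_cast (by omega : 1 ≤ N)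
  have hN0 : (0 : ℝ) < N := by linarith
  have hlog : 0 < Real.log N := by linarith
  have hAC : (A.card : ℝ) ≤ C * Real.log N :=
    hAC'.trans (mul_le_mul_of_nonneg_right (le_max_left _ _) hlog.le)
  set Q := primorial (HH N) with hQ
  have hQ0 : 0 < Q := primorial_pos _
  have hQ0' : (0 : ℝ) < Q := by exact_mod_cast hQ0
  have hgood := good_classes (HH N) A (C * Real.log N) (by positivity) hAC
  rw [← hQ] at hgood
  set Gd := (range Q).filter (fun b : ℕ =>
      ((A.filter (fun a : ℤ => IsCoprime ((b : ℤ) - a) (Q : ℤ))).card : ℝ) *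
        Real.log (HH N) ≤ 2 * (C * Real.log N)) with hGd
  set G : Finset ℕ := (range N).filter (fun n : ℕ => ∀ a ∈ A, ∃ p : ℕ, p.Prime ∧ p ≤ zz N ∧
    (p : ℤ) ∣ (n : ℤ) - a) with hG
  have hPQ : ∀ p ∈ PP (HH N) (zz N), ¬ p ∣ Q := by
    intro p hp hpQ
    have := Pool.Agent.H143R2.ACF.prime_dvd_primorial (PP_prime hp) hpQ
    have := PP_gt hp
    omega
  have hPe : (PP (HH N) (zz N)).erase 0 = PP (HH N) (zz N) :=
    Finset.erase_eq_of_notMem fun h => Nat.not_prime_zero (PP_prime h)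
  -- the classes
  have hclass : ∀ b ∈ Gd, c0 * ((N : ℝ) / Q) ≤ ((G.filter (fun n => n % Q = b)).card : ℝ) := by
    intro b hb
    rw [hGd, Finset.mem_filter, Finset.mem_range] at hb
    obtain ⟨hbQ, hbB⟩ := hb
    set B0 := A.filter (fun a : ℤ => IsCoprime ((b : ℤ) - a) (Q : ℤ)) with hB0
    set B : Finset ℕ := B0.map Equiv.intEquivNat.toEmbedding with hB
    have hBmem : ∀ x ∈ B, Equiv.intEquivNat.symm x ∈ B0 := by
      intro x hx
      rw [hB, Finset.mem_map] at hx
      obtain ⟨a, ha, rfl⟩ := hx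
      simpa using ha
    have hBN : ∀ x ∈ B, |Equiv.intEquivNat.symm x| ≤ (N : ℤ) := by
      intro x hx
      exact hA _ (Finset.mem_filter.1 (hBmem x hx)).1
    have hmain := hX0 N b1 (HH N) (zz N) (zz N) 0 b3
      (by
        have := HH_le N
        linarith) rfl rfl B rh (fun p _ => 1 / (p : ℝ)) (fun p => p)
      (fun n => if n % Q = b then 1 else 0) N ((N : ℝ) / Q) (fun _ => 1)
    rw [hPe] at hmain
    have hmain2 := hmain
      (by
        rw [hB, Finset.card_map]
        linarith)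
      (fun p hp a _ => rh_lt (PP_prime hp).pos a)
      (by
        intro p hp c hc
        have h2 : (2 : ℝ) ≤ p := by exact_mod_cast (PP_prime hp).two_le
        refine ⟨by positivity, ?_, ?_⟩
        · apply one_div_le_one_div_of_le <;> linarith
        · intro _
          rw [sub_self, abs_zero]
          positivity)
      (fun m => by split_ifs <;> norm_num)
      (by positivity)
      (equid Q b N (HH N) (zz N) (zz N) hbQ hPQ)
      (by
        intro U hU hUK
        refine (dl_le U (fun a ha => hBN a (hU ha)) hUK b4).trans (b7.trans ?_)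
        apply one_div_le_one_div_of_le
        · exact_mod_cast hK
        · linarith)
      ((et_le K (HH N) (zz N) (zz N) b3).trans b6)
      (by
        intro m hm _ a ha
        exact hsize N b2 (2 * C) (by linarith) _ (fun p hp => PP_prime hp) m a hm (hBN a ha))
    refine hmain2.trans ?_
    rw [← Finset.sum_filter, Finset.filter_filter, Finset.sum_const, nsmul_eq_mul, mul_one]
    have hsub : ((range N).filter (fun m => (∀ a ∈ B, ∃ p ∈ PP (HH N) (zz N), m % p = rh p a) ∧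
        m % Q = b)) ⊆ G.filter (fun n => n % Q = b) := by
      intro m hm
      rw [Finset.mem_filter] at hm
      obtain ⟨hm1, hm2, hm3⟩ := hm
      rw [hG, Finset.mem_filter, Finset.mem_filter]
      refine ⟨⟨hm1, fun a ha => ?_⟩, hm3⟩
      by_cases hco : IsCoprime ((b : ℤ) - a) (Q : ℤ)
      · obtain ⟨p, hp, hpm⟩ := hm2 (Equiv.intEquivNat a) (by
          rw [hB, Finset.mem_map]
          exact ⟨a, Finset.mem_filter.2 ⟨ha, hco⟩, rfl⟩)
        refine ⟨p, PP_prime hp, PP_le hp, ?_⟩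
        rw [rh_iff (PP_prime hp).pos, Equiv.symm_apply_apply] at hpm
        exact hpm
      · rw [Int.isCoprime_iff_gcd_eq_one] at hco
        obtain ⟨p, hp, hpd⟩ := Nat.exists_prime_and_dvd hco
        have hp1 : (p : ℤ) ∣ (b : ℤ) - a := (Int.natCast_dvd_natCast.2 hpd).trans (Int.gcd_dvd_left _ _)
        have hp2 : (p : ℤ) ∣ (Q : ℤ) := (Int.natCast_dvd_natCast.2 hpd).trans (Int.gcd_dvd_right _ _)
        have hp3 : p ∣ Q := Int.natCast_dvd_natCast.1 hp2
        have hp4 := Pool.Agent.H143R2.ACF.prime_dvd_primorial hp hp3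
        refine ⟨p, hp, hp4.trans b5, ?_⟩
        have h5 : (m : ℤ) - a = ((b : ℤ) - a) + (Q : ℤ) * ((m / Q : ℕ) : ℤ) := by
          have h6 := Nat.mod_add_div m Q
          rw [hm3] at h6
          have h7 : ((b + Q * (m / Q) : ℕ) : ℤ) = (m : ℤ) := by exact_mod_cast h6
          push_cast at h7 ⊢
          linarith
        rw [h5]
        exact dvd_add hp1 (hp2.mul_right _)
    exact_mod_cast Finset.card_le_card hsub
  -- sum over the good classes
  have hGcard : c0 / 2 * N ≤ (G.card : ℝ) := by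
    have h1 : ∑ b ∈ Gd, (G.filter (fun n => n % Q = b)).card ≤ G.card := by
      rw [← Finset.card_biUnion]
      · refine Finset.card_le_card ?_
        intro n hn
        rw [Finset.mem_biUnion] at hn
        obtain ⟨b, _, hb⟩ := hn
        exact (Finset.mem_filter.1 hb).1
      · intro x _ y _ hxy
        refine Finset.disjoint_left.2 ?_
        intro n hn hn'
        exact hxy ((Finset.mem_filter.1 hn).2.symm.trans (Finset.mem_filter.1 hn').2)
    have h2 : ∑ b ∈ Gd, c0 * ((N : ℝ) / Q) ≤ (G.card : ℝ) := by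
      refine (Finset.sum_le_sum hclass).trans ?_
      exact_mod_cast h1
    rw [Finset.sum_const, nsmul_eq_mul] at h2
    refine le_trans ?_ h2
    calc c0 / 2 * N = (Q : ℝ) / 2 * (c0 * ((N : ℝ) / Q)) := by
          field_simp
      _ ≤ Gd.card * (c0 * ((N : ℝ) / Q)) := by
          refine mul_le_mul_of_nonneg_right hgood (by positivity)
  -- the final count
  set E : Finset ℕ := (range N).filter (fun n : ℕ => ∃ a ∈ A, |(n : ℤ) - a| ≤ zz N) with hE
  have hEcard := near N (zz N) A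
  rw [← hE] at hEcard
  have hsub : G ⊆ ((range N).filter (fun n : ℕ => ∀ a ∈ A, ¬ ((n : ℤ) - a).natAbs.Prime)) ∪ E := by
    intro n hn
    rw [hG, Finset.mem_filter] at hn
    obtain ⟨hn1, hn2⟩ := hn
    rw [Finset.mem_union]
    by_cases hnE : n ∈ E
    · exact Or.inr hnE
    · left
      rw [Finset.mem_filter]
      refine ⟨hn1, fun a ha hpr => hnE ?_⟩
      obtain ⟨p, hp, hpz, hpd⟩ := hn2 a ha
      rw [hE, Finset.mem_filter]
      refine ⟨hn1, a, ha, ?_⟩
      have h1 : p ∣ ((n : ℤ) - a).natAbs := Int.natCast_dvd.1 hpd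
      have h2 := (Nat.prime_dvd_prime_iff_eq hp hpr).1 h1
      rw [Int.abs_eq_natAbs, ← h2]
      exact_mod_cast hpz
  have h1 := (Finset.card_le_card hsub).trans (Finset.card_union_le _ _)
  have h2 : (G.card : ℝ) ≤ ((((range N).filter
      (fun n : ℕ => ∀ a ∈ A, ¬ ((n : ℤ) - a).natAbs.Prime)).card : ℝ)) + A.card * (2 * zz N + 1) := by
    exact_mod_cast h1.trans (Nat.add_le_add_left hEcard _)
  have h3 : (A.card : ℝ) * (2 * zz N + 1) ≤ c0 / 4 * N :=
    (mul_le_mul_of_nonneg_right hAC (by positivity)).trans b8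
  have h4 : c0 / 4 * N ≤ ((((range N).filter
      (fun n : ℕ => ∀ a ∈ A, ¬ ((n : ℤ) - a).natAbs.Prime)).card : ℝ)) := by linarith
  convert h4 using 3

end Pool.Agent.H747R2.EN6
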