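import Pool.Agent.H295R2.Nic.Defs

/-!
# Task N1: the logarithmic derivative of zeta to the right of the zeros
-/

set_option autoImplicit false

open MeasureTheory Filter Topology Set Metric

namespace Pool.Agent.H747R2.NicN1

open Pool.Agent.H295R2

noncomputable section

theorem bound_at {θ ε : ℝ} (hθ : zetaSup < θ) (hθ1 : θ ≤ 3 / 2) (hε : 0 < ε) :
    ∃ C : ℝ, ∀ s : ℂ, θ ≤ s.re → s.re ≤ 3 → ‖deriv Zs s / Zs s‖ ≤ C * (1 + |s.im|) ^ ε := by
  have hΘ := half_le_zetaSup
  have hΘ1 := zetaSup_le_one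
  set ρ : ℝ := (θ - zetaSup) / 4 with hρ
  have hρ0 : 0 < ρ := by rw [hρ]; linarith
  set R0 : ℝ := 3 - θ with hR0
  set R1 : ℝ := R0 + ρ with hR1
  set R : ℝ := R0 + 2 * ρ with hR
  have hR0pos : 0 < R0 := by rw [hR0]; linarith
  have hRle : R ≤ 3 := by rw [hR, hR0, hρ]; linarith
  have hRpos : 0 < R := by linarith
  have hRm : zetaSup < 3 - R := by rw [hR, hR0, hρ]; linarith
  obtain ⟨K, hK1, hK⟩ := zeta_bounds (a := 17 / 16) (by norm_num)
  have hlogK : 0 ≤ Real.log K := Real.log_nonneg hK1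
  refine ⟨((6 * Real.log 5 + 6 * Real.log K + 24 + 18 * Real.log 10) + 18 / ε) / ρ ^ 2, ?_⟩
  intro s hs1 hs2
  set t : ℝ := s.im with ht
  set c : ℂ := ⟨3, t⟩ with hc
  set f0 : ℂ → ℂ := fun z => Zs (c + z) with hf0
  have hcre : c.re = 3 := rfl
  have hcim : c.im = t := rfl
  have hgeo : ∀ z ∈ ball (0:ℂ) R, zetaSup < (c + z).re ∧ ‖c + z‖ ≤ |t| + 9 := by
    intro z hz'
    rw [mem_ball_zero_iff] at hz'
    have h1 := Complex.abs_re_le_norm z
    have h2 := Complex.abs_im_le_norm z
    have h3 := abs_le.mp (h1.trans hz'.le)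
    have h4 := abs_le.mp (h2.trans hz'.le)
    constructor
    · rw [Complex.add_re, hcre]; linarith [h3.1]
    · have h5 := Complex.norm_le_abs_re_add_abs_im (c + z)
      rw [Complex.add_re, Complex.add_im, hcre, hcim] at h5
      have h6 : |3 + z.re| ≤ 6 := by rw [abs_le]; constructor <;> linarith [h3.1, h3.2]
      have h7 := abs_add_le t z.im
      have h8 : |z.im| ≤ 3 := by linarith
      linarith
  have hf0d : DifferentiableOn ℂ f0 (ball 0 R) := by
    intro z _
    refine DifferentiableAt.differentiableWithinAt ?_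
    exact DifferentiableAt.comp z (g := Zs) (f := fun z => c + z) (Zs_differentiable _)
      (by fun_prop)
  have hf0ne : ∀ z ∈ ball (0:ℂ) R, f0 z ≠ 0 := fun z hz' =>
    zetaSup_free _ (hgeo z hz').1
  obtain ⟨L, hLd, hLexp, hL0⟩ := exists_log_ball hRpos hf0d hf0ne
  have hLre : ∀ z ∈ ball (0:ℂ) R, (L z).re = Real.log ‖f0 z‖ := by
    intro z hz'
    rw [← hLexp z hz', Complex.norm_exp, Real.log_exp]
  have habs := abs_nonneg t
  -- value at 0
  have hL00 : ‖L 0‖ ≤ Real.log (K * (|t| + 10)) + 4 := by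
    rw [hL0]
    have hc0 : 17 / 16 ≤ (c + 0).re := by rw [add_zero, hcre]; norm_num
    have hne : c + 0 ≠ 1 := by
      intro h
      have := congrArg Complex.re h
      rw [add_zero, hcre, Complex.one_re] at this
      norm_num at this
    have hn1 : ‖c + 0 - 1‖ ≤ |t| + 10 := by
      have h5 := Complex.norm_le_abs_re_add_abs_im (c + 0 - 1)
      rw [Complex.sub_re, Complex.sub_im, add_zero, hcre, hcim, Complex.one_re, Complex.one_im] at h5
      rw [add_zero]
      have : |(3:ℝ) - 1| = 2 := by norm_num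
      rw [this, sub_zero] at h5
      linarith
    have hn2 : 1 ≤ ‖c + 0 - 1‖ := by
      have h5 := Complex.abs_re_le_norm (c + 0 - 1)
      rw [Complex.sub_re, add_zero, hcre, Complex.one_re] at h5
      rw [add_zero]
      have : |(3:ℝ) - 1| = 2 := by norm_num
      linarith
    have hKt : 1 ≤ K * (|t| + 10) := by nlinarith
    refine norm_log_le hKt ?_ ?_ (hf0ne 0 (mem_ball_self hRpos))
    · change ‖Zs (c + 0)‖ ≤ _
      rw [← Zs_eq hne, norm_mul, mul_comm]
      exact mul_le_mul (hK _ hc0).1 hn1 (norm_nonneg _) (by linarith)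
    · change ‖(Zs (c + 0))⁻¹‖ ≤ _
      have h6 := (hK _ hc0).2
      have h7 : ‖fz (c + 0)‖ = ‖c + 0 - 1‖ * ‖(Zs (c + 0))⁻¹‖ := by
        rw [fz, norm_div, norm_inv, div_eq_mul_inv]
      rw [h7] at h6
      have h8 : ‖(Zs (c + 0))⁻¹‖ ≤ K := by
        have := norm_nonneg ((Zs (c + 0))⁻¹)
        nlinarith
      nlinarith
  -- upper bound of the real part
  set A : ℝ := Real.log (5 * (|t| + 10) ^ 2) with hA
  have hAeq : A = Real.log 5 + 2 * Real.log (|t| + 10) := by
    rw [hA, Real.log_mul (by norm_num) (by positivity), Real.log_pow]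
    norm_num
  have hlogt : 0 ≤ Real.log (|t| + 10) := Real.log_nonneg (by linarith)
  have hlog5 : 0 < Real.log 5 := Real.log_pos (by norm_num)
  have hApos : 0 < A := by rw [hAeq]; linarith
  have hupper : MapsTo L (ball 0 R) {z | z.re ≤ A} := by
    intro z hz'
    obtain ⟨g1, g2⟩ := hgeo z hz'
    change (L z).re ≤ A
    rw [hLre z hz']
    apply Real.log_le_log (norm_pos_iff.mpr (hf0ne z hz'))
    have h2 : ‖Zs (c + z)‖ ≤ 5 * (‖c + z‖ + 1) ^ 2 := Zs_norm_le (by linarith)
    refine h2.trans ?_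
    have : ‖c + z‖ + 1 ≤ |t| + 10 := by linarith
    gcongr
  have hBC : ∀ z : ℂ, ‖z‖ ≤ R1 → ‖L z‖ ≤ (6 * A + 6 * (Real.log (K * (|t| + 10)) + 4)) / ρ := by
    intro z hz'
    have hR1R : R1 < R := by rw [hR1, hR]; linarith
    have hzR : z ∈ ball (0:ℂ) R := by rw [mem_ball_zero_iff]; linarith
    have h1 := Complex.borelCaratheodory hApos hLd hupper hRpos hzR
    refine h1.trans ?_
    have hd : ρ ≤ R - ‖z‖ := by
      have : R - R1 = ρ := by rw [hR1, hR]; ring
      linarith
    have hz3 : ‖z‖ ≤ 3 := by linarith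
    have hzn := norm_nonneg z
    have e1 : 2 * A * ‖z‖ / (R - ‖z‖) ≤ 6 * A / ρ := by
      apply div_le_div₀ (by positivity) _ hρ0 hd
      nlinarith
    have e2 : ‖L 0‖ * (R + ‖z‖) / (R - ‖z‖) ≤ 6 * (Real.log (K * (|t| + 10)) + 4) / ρ := by
      have hL0n := norm_nonneg (L 0)
      apply div_le_div₀ (by linarith) _ hρ0 hd
      calc ‖L 0‖ * (R + ‖z‖) ≤ (Real.log (K * (|t| + 10)) + 4) * 6 :=
            mul_le_mul hL00 (by linarith) (by linarith) (by linarith)
        _ = _ := by ring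
    rw [add_div]
    exact add_le_add e1 e2
  -- Cauchy's estimate
  set z : ℂ := ((s.re - 3 : ℝ) : ℂ) with hzdef
  have hcz : c + z = s := by
    apply Complex.ext
    · rw [Complex.add_re, hcre, hzdef, Complex.ofReal_re]; ring
    · rw [Complex.add_im, hcim, hzdef, Complex.ofReal_im, add_zero]
  have hznorm : ‖z‖ = 3 - s.re := by
    rw [hzdef, Complex.norm_real, Real.norm_eq_abs, abs_of_nonpos (by linarith)]; ring
  have hzR0 : ‖z‖ ≤ R0 := by rw [hznorm, hR0]; linarith
  have hzR : z ∈ ball (0:ℂ) R := by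
    rw [mem_ball_zero_iff, hR]; linarith
  have hclosed : closedBall z ρ ⊆ ball (0:ℂ) R := by
    intro w hw
    rw [mem_closedBall, dist_eq_norm] at hw
    rw [mem_ball_zero_iff]
    have : ‖w‖ ≤ ‖z‖ + ‖w - z‖ := by
      calc ‖w‖ = ‖z + (w - z)‖ := by congr 1; ring
        _ ≤ _ := norm_add_le _ _
    rw [hR]; linarith
  have hdc : DiffContOnCl ℂ L (ball z ρ) := by
    apply DifferentiableOn.diffContOnCl
    rw [closure_ball z hρ0.ne']
    exact hLd.mono hclosed
  have hder := Complex.norm_deriv_le_of_forall_mem_sphere_norm_le hρ0 hdc (fun w hw => by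
    apply hBC w
    rw [mem_sphere, dist_eq_norm] at hw
    have : ‖w‖ ≤ ‖z‖ + ‖w - z‖ := by
      calc ‖w‖ = ‖z + (w - z)‖ := by congr 1; ring
        _ ≤ _ := norm_add_le _ _
    rw [hR1]; linarith)
  -- the derivative of the logarithm
  have hLat : DifferentiableAt ℂ L z := hLd.differentiableAt (isOpen_ball.mem_nhds hzR)
  have hquot : deriv L z = deriv Zs s / Zs s := by
    have h1 : HasDerivAt (fun w => Complex.exp (L w)) (Complex.exp (L z) * deriv L z) z :=
      hLat.hasDerivAt.cexp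
    have h2 : HasDerivAt f0 (deriv Zs s) z := by
      have h3 : HasDerivAt Zs (deriv Zs (c + z)) (c + z) := (Zs_differentiable _).hasDerivAt
      rw [hcz] at h3
      have h4 : HasDerivAt (fun z : ℂ => c + z) 1 z := (hasDerivAt_id z).const_add c
      have h3' : HasDerivAt Zs (deriv Zs s) (c + z) := by rw [hcz]; exact h3
      have h5 := HasDerivAt.comp z h3' h4
      rw [mul_one] at h5
      exact h5
    have h6 : (fun w => Complex.exp (L w)) =ᶠ[𝓝 z] f0 := by
      filter_upwards [isOpen_ball.mem_nhds hzR] with w hw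
      exact hLexp w hw
    have h7 := (h1.congr_of_eventuallyEq h6.symm).unique h2
    have h8 : Complex.exp (L z) = Zs s := by
      rw [hLexp z hzR, hf0]
      simp only [hcz]
    rw [h8] at h7
    have h9 : Zs s ≠ 0 := zetaSup_free s (by linarith)
    rw [← h7]
    field_simp
  rw [← hquot]
  refine hder.trans ?_
  have hKlog : Real.log (K * (|t| + 10)) = Real.log K + Real.log (|t| + 10) :=
    Real.log_mul (by positivity) (by positivity)
  rw [hKlog, hAeq, div_div, ← sq]
  rw [div_mul_eq_mul_div]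
  apply div_le_div_of_nonneg_right _ (by positivity)
  have hlog10 : 0 ≤ Real.log 10 := Real.log_nonneg (by norm_num)
  have hl1 : Real.log (|t| + 10) ≤ Real.log 10 + Real.log (1 + |t|) := by
    rw [← Real.log_mul (by norm_num) (by positivity)]
    apply Real.log_le_log (by positivity)
    linarith
  have hl2 : Real.log (1 + |t|) ≤ (1 + |t|) ^ ε / ε := Real.log_le_rpow_div (by positivity) hε
  have hge : (1:ℝ) ≤ (1 + |t|) ^ ε := Real.one_le_rpow (by linarith) hε.le
  set P : ℝ := (1 + |t|) ^ ε with hP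
  have hc0 : 0 ≤ 6 * Real.log 5 + 6 * Real.log K + 24 + 18 * Real.log 10 := by linarith
  have e3 : 18 / ε * P = 18 * (P / ε) := by ring
  rw [add_mul, e3]
  nlinarith [mul_le_mul_of_nonneg_left hge hc0]

/-- N1 -/
theorem logDerB : Pool.Agent.H295R2.Nic.LogDerB := by
  intro θ hθ ε hε
  have h1 := zetaSup_le_one
  obtain ⟨C, hC⟩ := bound_at (θ := min θ (3 / 2)) (ε := ε) (lt_min hθ (by linarith))
    (min_le_right _ _) hε
  exact ⟨C, fun s hs1 hs2 => hC s ((min_le_left _ _).trans hs1) hs2⟩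

end

end Pool.Agent.H747R2.NicN1
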